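import Mathlib
import Pool.Agent.H313R3.BK.CF

/-!
# Convergents of a digit sequence
-/

set_option autoImplicit false

open Filter Topology
open H313R3.BK

namespace Pool.Agent.Q3.CFSum

/-- numerators, shifted: `P d (n+1)` is the numerator of the `n`-th convergent. -/
def P (d : ℕ → ℕ) : ℕ → ℕ
  | 0 => 1
  | 1 => 0
  | (n + 2) => d n * P d (n + 1) + P d n

/-- denominators, shifted. -/
def Q (d : ℕ → ℕ) : ℕ → ℕ
  | 0 => 0
  | 1 => 1
  | (n + 2) => d n * Q d (n + 1) + Q d n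

theorem P_succ (d : ℕ → ℕ) (n : ℕ) : P d (n + 2) = d n * P d (n + 1) + P d n := rfl
theorem Q_succ (d : ℕ → ℕ) (n : ℕ) : Q d (n + 2) = d n * Q d (n + 1) + Q d n := rfl

theorem det (d : ℕ → ℕ) (n : ℕ) :
    (P d n : ℝ) * Q d (n + 1) - P d (n + 1) * Q d n = (-1) ^ n := by
  induction n with
  | zero => simp [P, Q]
  | succ n ih =>
    rw [P_succ, Q_succ]
    push_cast
    rw [pow_succ, ← ih]
    ring

theorem Q_pos_mono (d : ℕ → ℕ) (hd : ∀ k, 1 ≤ d k) (n : ℕ) :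
    1 ≤ Q d (n + 1) ∧ Q d n ≤ Q d (n + 1) := by
  induction n with
  | zero => simp [Q]
  | succ n ih =>
    rw [Q_succ]
    have := hd n
    constructor <;> nlinarith

theorem Q_pos (d : ℕ → ℕ) (hd : ∀ k, 1 ≤ d k) (n : ℕ) : 1 ≤ Q d (n + 1) := (Q_pos_mono d hd n).1

theorem Q_mono (d : ℕ → ℕ) (hd : ∀ k, 1 ≤ d k) (n : ℕ) : Q d n ≤ Q d (n + 1) :=
  (Q_pos_mono d hd n).2

theorem Q_ge (d : ℕ → ℕ) (hd : ∀ k, 1 ≤ d k) (n : ℕ) : n ≤ Q d (n + 1) ∧ n + 1 ≤ Q d (n + 2) := by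
  induction n with
  | zero =>
    refine ⟨by simp [Q], ?_⟩
    rw [Q_succ]
    have := hd 0
    simp only [Q]
    omega
  | succ n ih =>
    refine ⟨ih.2, ?_⟩
    rw [Q_succ]
    have h1 := hd (n + 1)
    have h2 := ih.2
    have h3 := Q_pos d hd n
    nlinarith

theorem PQ_congr (d d' : ℕ → ℕ) (n : ℕ) (h : ∀ k < n, d k = d' k) :
    P d n = P d' n ∧ P d (n + 1) = P d' (n + 1) ∧ Q d n = Q d' n ∧ Q d (n + 1) = Q d' (n + 1) := by
  induction n with
  | zero => simp [P, Q]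
  | succ n ih =>
    obtain ⟨h1, h2, h3, h4⟩ := ih (fun k hk => h k (by omega))
    have h5 := h n (by omega)
    refine ⟨h2, ?_, h4, ?_⟩
    · rw [P_succ, P_succ, h1, h2, h5]
    · rw [Q_succ, Q_succ, h3, h4, h5]

/-- the `n`-th convergent -/
noncomputable def cv (d : ℕ → ℕ) (n : ℕ) : ℝ := (P d (n + 1) : ℝ) / Q d (n + 1)

theorem cv_congr (d d' : ℕ → ℕ) (n : ℕ) (h : ∀ k < n, d k = d' k) : cv d n = cv d' n := by
  obtain ⟨_, h2, _, h4⟩ := PQ_congr d d' n h
  unfold cv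
  rw [h2, h4]

theorem cv_succ (d : ℕ → ℕ) (hd : ∀ k, 1 ≤ d k) (n : ℕ) :
    cv d (n + 1) = cv d n + (-1) ^ n / ((Q d (n + 1) : ℝ) * (d n * Q d (n + 1) + Q d n)) := by
  have h1 : (0 : ℝ) < Q d (n + 1) := by exact_mod_cast Q_pos d hd n
  have h2 : (0 : ℝ) < Q d (n + 2) := by exact_mod_cast Q_pos d hd (n + 1)
  have h3 : (Q d (n + 2) : ℝ) = d n * Q d (n + 1) + Q d n := by rw [Q_succ]; push_cast; ring
  unfold cv
  rw [← h3, ← det d n, P_succ]
  push_cast
  rw [div_add_div _ _ h1.ne' (by positivity), div_eq_div_iff h2.ne' (by positivity)]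
  rw [h3]
  ring

/-- value of the continued fraction through its `n`-th tail -/
theorem cf_eq (d : ℕ → ℕ) (hd : ∀ k, 1 ≤ d k) (n : ℕ) :
    cf d * (Q d (n + 1) + Q d n * cf (shn n d)) = P d (n + 1) + P d n * cf (shn n d) := by
  induction n with
  | zero =>
    have : shn 0 d = d := rfl
    simp [P, Q, this]
  | succ n ih =>
    have hs : ∀ i, 1 ≤ shn n d i := fun i => hd (i + n)
    have hs' : ∀ i, 1 ≤ shn (n + 1) d i := fun i => hd (i + (n + 1))
    have h1 := cf_rec _ hs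
    rw [sh_shn] at h1
    have h2 : shn n d 0 = d n := by simp [shn]
    rw [h2] at h1
    have h3 := cf_pos _ hs'
    have hdn : (1 : ℝ) ≤ d n := by exact_mod_cast hd n
    have h4 : (0 : ℝ) < d n + cf (shn (n + 1) d) := by linarith
    rw [h1] at ih
    rw [P_succ, Q_succ]
    push_cast
    field_simp at ih
    linear_combination ih

theorem cf_sub_cv (d : ℕ → ℕ) (hd : ∀ k, 1 ≤ d k) (n : ℕ) :
    |cf d - cv d n| ≤ 1 / (Q d (n + 1) : ℝ) := by
  have h1 : (1 : ℝ) ≤ Q d (n + 1) := by exact_mod_cast Q_pos d hd n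
  have hs : ∀ i, 1 ≤ shn n d i := fun i => hd (i + n)
  have hz0 := cf_pos _ hs
  have hz1 := cf_lt_one _ hs
  set z := cf (shn n d)
  have hq : (0 : ℝ) ≤ Q d n := by positivity
  have hden : 0 < (Q d (n + 1) : ℝ) + Q d n * z := by positivity
  have h2 : cf d = (P d (n + 1) + P d n * z) / (Q d (n + 1) + Q d n * z) := by
    rw [eq_div_iff hden.ne']; exact cf_eq d hd n
  have h3 : cf d - cv d n = z * (-1) ^ n / (Q d (n + 1) * (Q d (n + 1) + Q d n * z)) := by
    rw [h2, cv, ← det d n]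
    field_simp
    ring
  rw [h3, abs_div, abs_mul, abs_pow, abs_neg, abs_one, one_pow, mul_one, abs_of_pos hz0,
    abs_of_pos (by positivity), div_le_div_iff₀ (by positivity) (by positivity)]
  have h4 : 0 ≤ (Q d n : ℝ) * z := by positivity
  nlinarith

/-- The Gauss map orbit of `cf d`. -/
theorem gauss_iter (d : ℕ → ℕ) (hd : ∀ k, 1 ≤ d k) (n : ℕ) :
    ((fun y : ℝ => Int.fract (1 / y))^[n] (cf d)) = cf (shn n d) := by
  induction n with
  | zero => rfl
  | succ n ih =>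
    rw [Function.iterate_succ_apply', ih]
    have hs : ∀ i, 1 ≤ shn n d i := fun i => hd (i + n)
    have hs' : ∀ i, 1 ≤ shn (n + 1) d i := fun i => hd (i + (n + 1))
    have h1 := cf_rec _ hs
    rw [sh_shn] at h1
    have h2 : shn n d 0 = d n := by simp [shn]
    rw [h2] at h1
    have h3 := cf_pos _ hs'
    have h4 := cf_lt_one _ hs'
    have hdn : (1 : ℝ) ≤ d n := by exact_mod_cast hd n
    change Int.fract (1 / cf (shn n d)) = _
    rw [h1, one_div_one_div, Int.fract_natCast_add]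
    exact Int.fract_eq_self.2 ⟨h3.le, h4⟩

theorem gauss_floor (d : ℕ → ℕ) (hd : ∀ k, 1 ≤ d k) (n : ℕ) :
    ⌊1 / ((fun y : ℝ => Int.fract (1 / y))^[n] (cf d))⌋ = d n := by
  rw [gauss_iter d hd]
  have hs : ∀ i, 1 ≤ shn n d i := fun i => hd (i + n)
  have hs' : ∀ i, 1 ≤ shn (n + 1) d i := fun i => hd (i + (n + 1))
  have h1 := cf_rec _ hs
  rw [sh_shn] at h1
  have h2 : shn n d 0 = d n := by simp [shn]
  rw [h2] at h1
  have h3 := cf_pos _ hs'
  have h4 := cf_lt_one _ hs'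
  rw [h1, one_div_one_div, Int.floor_eq_iff]
  push_cast
  constructor <;> linarith

end Pool.Agent.Q3.CFSum
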