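import Mathlib

/-!
# One step of the two-sided greedy expansion: the numerical part
-/

set_option autoImplicit false

namespace Pool.Agent.Q3.CFSum

/-- Choosing the largest digit below the target. -/
theorem ceil_part (n : ℕ) (t t' v : ℝ) (ht : 0 < t) (ht' : 0 ≤ t') (htt : t' ≤ t) (hv : 0 < v)
    (h : t ^ 2 * v * (n + 2) < 1) :
    ∃ (a : ℕ) (θ : ℝ), n + 1 ≤ a ∧ 0 < θ ∧ θ ≤ 1 ∧ 0 < (a : ℝ) * t + t' ∧
      1 / (t * (a * t + t')) - v = v * θ * t / (a * t + t') := by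
  set y : ℝ := (1 - t * t' * v) / (t ^ 2 * v) with hy
  have hyeq : y * t + t' = 1 / (t * v) := by
    rw [hy]; field_simp; ring
  have hbig : (n : ℝ) + 1 < y := by
    rw [hy, lt_div_iff₀ (by positivity)]
    have h1 : t * t' * v ≤ t * t * v := by gcongr
    nlinarith
  set c : ℤ := ⌈y⌉ with hc
  have hc1 : (n : ℤ) + 2 ≤ c := by
    have : (n : ℤ) + 1 < c := by
      rw [hc, Int.lt_ceil]
      push_cast
      exact hbig
    omega
  obtain ⟨a, ha⟩ : ∃ a : ℕ, c = a + 1 := ⟨(c - 1).toNat, by omega⟩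
  have hcr : ((c : ℤ) : ℝ) = a + 1 := by rw [ha]; push_cast; rfl
  have h1 := Int.ceil_lt_add_one y
  have h2 := Int.le_ceil y
  rw [← hc, hcr] at h1 h2
  have ha0 : (1 : ℝ) ≤ a := by
    have : 1 ≤ a := by omega
    exact_mod_cast this
  have hTpos : 0 < (a : ℝ) * t + t' := by positivity
  refine ⟨a, y - a, by omega, by linarith, by linarith, hTpos, ?_⟩
  have hTeq : (a : ℝ) * t + t' = 1 / (t * v) - (y - a) * t := by
    rw [← hyeq]
    ring
  have hTv : t * (a * t + t') * v = 1 - (y - a) * t ^ 2 * v := by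
    rw [hTeq]; field_simp
  rw [div_sub' (by positivity), div_eq_div_iff (by positivity) (by positivity)]
  have : t * ((a : ℝ) * t + t') * v * (a * t + t') = (1 - (y - a) * t ^ 2 * v) * (a * t + t') := by
    rw [hTv]
  linear_combination (-1) * this

/-- Case I. -/
theorem step_caseI (n m q q' t t' : ℕ) (u f : ℝ) (hq : 1 ≤ q) (ht : 1 ≤ t) (htt : t' ≤ t)
    (hu : 0 < u) (hB : (n + 1) * (q * t * u) < 1) (hnm : n ≤ m)
    (hm : ((m : ℝ) + f) * q + q' = 1 / (q * u)) (hf : 1 / ((n : ℝ) + 2) ≤ f) (hf1 : f < 1) :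
    (∃ a a' : ℕ, n + 1 ≤ a ∧ n + 1 ≤ a' ∧
      0 < u - 1 / ((q : ℝ) * (a * q + q')) ∧
      0 < 1 / ((t : ℝ) * (a' * t + t')) - (u - 1 / ((q : ℝ) * (a * q + q'))) ∧
      (n + 2) * ((a * q + q') * (a' * t + t') *
        (1 / ((t : ℝ) * (a' * t + t')) - (u - 1 / ((q : ℝ) * (a * q + q'))))) < 1) := by
  have hq0 : (0 : ℝ) < q := by exact_mod_cast hq
  have ht0 : (0 : ℝ) < t := by exact_mod_cast ht
  have hq'0 : (0 : ℝ) ≤ q' := by positivity
  have ht'0 : (0 : ℝ) ≤ t' := by positivity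
  have htt' : (t' : ℝ) ≤ t := by exact_mod_cast htt
  have hn0 : (0 : ℝ) ≤ n := by positivity
  have hqtu : 0 < q * t * u := by positivity
  have hqtu1 : q * t * u < 1 := by nlinarith
  set θ : ℝ := 1 - f with hθ
  have hθ0 : 0 < θ := by linarith
  have hθ1 : θ * (n + 2) ≤ n + 1 := by
    have : 1 ≤ f * (n + 2) := by
      rw [div_le_iff₀ (by positivity)] at hf
      exact hf
    nlinarith
  obtain ⟨Q, hQ⟩ : ∃ Q : ℝ, Q = ((m + 1 : ℕ) : ℝ) * q + q' := ⟨_, rfl⟩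
  have hQpos : 0 < Q := by rw [hQ]; positivity
  have hQeq : Q = 1 / (q * u) + θ * q := by
    rw [hQ, ← hm, hθ]
    push_cast
    ring
  have hQu : q * Q * u = 1 + θ * q ^ 2 * u := by
    rw [hQeq]; field_simp
  obtain ⟨v, hv⟩ : ∃ v : ℝ, v = u - 1 / (q * Q) := ⟨_, rfl⟩
  have hveq : v = u * θ * q / Q := by
    rw [hv, sub_div' (by positivity), div_eq_div_iff (by positivity) (by positivity)]
    linear_combination Q * hQu
  have hv0 : 0 < v := by rw [hveq]; positivity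
  have h2 : (t : ℝ) ^ 2 * v * (n + 2) < 1 := by
    have h3 : v < u * θ * q * (q * u) := by
      rw [hveq, div_lt_iff₀ hQpos]
      have h4 : 1 < q * u * Q := by
        have : q * u * Q = 1 + θ * q ^ 2 * u := by rw [← hQu]; ring
        rw [this]
        have : 0 < θ * q ^ 2 * u := by positivity
        linarith
      have h5 : 0 < u * θ * q := by positivity
      nlinarith
    have h6 : (t : ℝ) ^ 2 * v * (n + 2) < t ^ 2 * (u * θ * q * (q * u)) * (n + 2) := by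
      gcongr
    have h7 : t ^ 2 * (u * θ * q * (q * u)) * (n + 2) = (q * t * u) ^ 2 * (θ * (n + 2)) := by
      ring
    have h8 : (q * t * u) ^ 2 * (θ * (n + 2)) ≤ (q * t * u) ^ 2 * (n + 1) := by gcongr
    have h9 : (q * t * u) ^ 2 * (n + 1) ≤ 1 := by nlinarith
    linarith
  obtain ⟨a', θ', hna', hθ'0, hθ'1, hTpos, hweq⟩ := ceil_part n t t' v ht0 ht'0 htt' hv0 h2
  refine ⟨m + 1, a', by omega, hna', ?_, ?_, ?_⟩
  · rw [← hQ, ← hv]; exact hv0
  · rw [← hQ, ← hv, hweq]; positivity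
  · rw [← hQ, ← hv, hweq]
    have h1 : Q * (a' * t + t') * (v * θ' * t / (a' * t + t')) = θ' * θ * (q * t * u) := by
      rw [hveq]; field_simp
    rw [h1]
    have h2 : θ' * θ * (q * t * u) ≤ 1 * θ * (q * t * u) := by gcongr
    calc (n + 2) * (θ' * θ * (q * t * u)) ≤ (n + 2) * (1 * θ * (q * t * u)) := by gcongr
      _ = (θ * (n + 2)) * (q * t * u) := by ring
      _ ≤ (n + 1) * (q * t * u) := by gcongr
      _ < 1 := hB

/-- Case II. -/
theorem step_caseII (n m q q' t : ℕ) (u f : ℝ) (hq : 1 ≤ q) (ht : 1 ≤ t)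
    (hu : 0 < u) (hB : (n + 1) * (q * t * u) < 1) (hnm : n ≤ m) (hm1 : 1 ≤ m)
    (hm : ((m : ℝ) + f) * q + q' = 1 / (q * u)) (hf : f < 1 / ((n : ℝ) + 2)) (hf0 : 0 < f) :
    (∃ a a' : ℕ, n ≤ a ∧ 1 ≤ a ∧ n + 1 ≤ a' ∧
      0 < 1 / ((q : ℝ) * (a * q + q')) - u ∧
      0 < 1 / ((a * q + q') * (a' * (a * q + q') + q)) - (1 / ((q : ℝ) * (a * q + q')) - u) ∧
      (n + 2) * ((a' * (a * q + q') + q) * t *
        (1 / ((a * q + q') * (a' * (a * q + q') + q)) - (1 / ((q : ℝ) * (a * q + q')) - u))) < 1)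
    := by
  have hq0 : (0 : ℝ) < q := by exact_mod_cast hq
  have ht0 : (0 : ℝ) < t := by exact_mod_cast ht
  have hq'0 : (0 : ℝ) ≤ q' := by positivity
  have hn0 : (0 : ℝ) ≤ n := by positivity
  have hqtu : 0 < q * t * u := by positivity
  have hqtu1 : q * t * u < 1 := by nlinarith
  have hfn : f * (n + 2) < 1 := by
    rw [lt_div_iff₀ (by positivity)] at hf
    exact hf
  have hm1' : (1 : ℝ) ≤ m := by exact_mod_cast hm1
  obtain ⟨Q, hQ⟩ : ∃ Q : ℝ, Q = (m : ℝ) * q + q' := ⟨_, rfl⟩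
  have hQq : (q : ℝ) ≤ Q := by rw [hQ]; nlinarith
  have hQpos : 0 < Q := by linarith
  have hQeq : Q = 1 / (q * u) - f * q := by
    rw [hQ, ← hm]
    ring
  have hQu : q * Q * u = 1 - f * q ^ 2 * u := by
    rw [hQeq]; field_simp
  obtain ⟨v, hv⟩ : ∃ v : ℝ, v = 1 / (q * Q) - u := ⟨_, rfl⟩
  have hveq : v = u * f * q / Q := by
    rw [hv, div_sub' (by positivity), div_eq_div_iff (by positivity) (by positivity)]
    linear_combination (-Q) * hQu
  have hv0 : 0 < v := by rw [hveq]; positivity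
  have h2 : Q ^ 2 * v * (n + 2) < 1 := by
    have h3 : Q ^ 2 * v = f * (q * Q * u) := by rw [hveq]; field_simp
    rw [h3, hQu]
    have h4 : 0 < f * q ^ 2 * u := by positivity
    have h5 : f * (1 - f * q ^ 2 * u) ≤ f := by nlinarith
    calc f * (1 - f * q ^ 2 * u) * (n + 2) ≤ f * (n + 2) := by gcongr
      _ < 1 := hfn
  obtain ⟨a', θ', hna', hθ'0, hθ'1, hTpos, hweq⟩ := ceil_part n Q q v hQpos hq0.le hQq hv0 h2
  refine ⟨m, a', hnm, hm1, hna', ?_, ?_, ?_⟩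
  · rw [← hQ, ← hv]; exact hv0
  · rw [← hQ, ← hv, hweq]; positivity
  · rw [← hQ, ← hv, hweq]
    have h1 : (a' * Q + q) * t * (v * θ' * Q / (a' * Q + q)) = θ' * f * (q * t * u) := by
      rw [hveq]; field_simp
    rw [h1]
    have h2 : θ' * f * (q * t * u) ≤ 1 * f * (q * t * u) := by gcongr
    calc (n + 2) * (θ' * f * (q * t * u)) ≤ (n + 2) * (1 * f * (q * t * u)) := by gcongr
      _ = (f * (n + 2)) * (q * t * u) := by ring
      _ ≤ 1 * (q * t * u) := by gcongr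
      _ < 1 := by linarith

/-- Data common to the two cases. `q, q'` are the last denominators of the chosen coordinate, `t, t'`
those of the other one, `u` is the size of the error. -/
theorem step_num (n q q' t t' : ℕ) (u : ℝ) (hq : 1 ≤ q) (hqq : q' ≤ q) (ht : 1 ≤ t) (htt : t' ≤ t)
    (hqt : q ≤ t) (hu : 0 < u) (hB : (n + 1) * (q * t * u) < 1)
    (hstart : (q : ℝ) * (q + q') * u ≤ 1)
    (hirr : ∀ a : ℕ, u ≠ 1 / ((q : ℝ) * (a * q + q'))) :
    (∃ a a' : ℕ, n + 1 ≤ a ∧ n + 1 ≤ a' ∧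
      0 < u - 1 / ((q : ℝ) * (a * q + q')) ∧
      0 < 1 / ((t : ℝ) * (a' * t + t')) - (u - 1 / ((q : ℝ) * (a * q + q'))) ∧
      (n + 2) * ((a * q + q') * (a' * t + t') *
        (1 / ((t : ℝ) * (a' * t + t')) - (u - 1 / ((q : ℝ) * (a * q + q'))))) < 1) ∨
    (∃ a a' : ℕ, n ≤ a ∧ 1 ≤ a ∧ n + 1 ≤ a' ∧
      0 < 1 / ((q : ℝ) * (a * q + q')) - u ∧
      0 < 1 / ((a * q + q') * (a' * (a * q + q') + q)) - (1 / ((q : ℝ) * (a * q + q')) - u) ∧
      (n + 2) * ((a' * (a * q + q') + q) * t *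
        (1 / ((a * q + q') * (a' * (a * q + q') + q)) - (1 / ((q : ℝ) * (a * q + q')) - u))) < 1)
    := by
  have hq0 : (0 : ℝ) < q := by exact_mod_cast hq
  have hq1 : (1 : ℝ) ≤ q := by exact_mod_cast hq
  have hq'0 : (0 : ℝ) ≤ q' := by positivity
  have hqq' : (q' : ℝ) ≤ q := by exact_mod_cast hqq
  have hqt' : (q : ℝ) ≤ t := by exact_mod_cast hqt
  have hn0 : (0 : ℝ) ≤ n := by positivity
  -- `y = α - ρ`
  obtain ⟨y, hy⟩ : ∃ y : ℝ, y = (1 - q * q' * u) / ((q : ℝ) ^ 2 * u) := ⟨_, rfl⟩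
  have hyeq : y * q + q' = 1 / (q * u) := by
    rw [hy]; field_simp; ring
  have hy1 : 1 ≤ y := by
    rw [hy, le_div_iff₀ (by positivity)]
    nlinarith
  have hyn : (n : ℝ) < y := by
    rw [hy, lt_div_iff₀ (by positivity)]
    have h1 : (q : ℝ) * q * u ≤ q * t * u := by gcongr
    have h2 : (q : ℝ) * q' * u ≤ q * q * u := by gcongr
    nlinarith
  have hf0 : 0 ≤ Int.fract y := Int.fract_nonneg y
  have hf1 : Int.fract y < 1 := Int.fract_lt_one y
  have hyfl : y = ⌊y⌋ + Int.fract y := (Int.floor_add_fract y).symm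
  have hfloor0 : (n : ℤ) ≤ ⌊y⌋ := Int.le_floor.mpr (by push_cast; exact hyn.le)
  have hfloor1 : (1 : ℤ) ≤ ⌊y⌋ := Int.le_floor.mpr (by push_cast; exact hy1)
  obtain ⟨m, hm⟩ : ∃ m : ℕ, ⌊y⌋ = m := ⟨⌊y⌋.toNat, by omega⟩
  have hmn : n ≤ m := by omega
  have hm1 : 1 ≤ m := by omega
  have hmy : (m : ℝ) + Int.fract y = y := by
    have : ((⌊y⌋ : ℤ) : ℝ) = (m : ℝ) := by rw [hm]; push_cast; rfl
    rw [← this]; linarith
  have hmeq : ((m : ℝ) + Int.fract y) * q + q' = 1 / (q * u) := by rw [hmy, hyeq]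
  rcases le_or_gt (1 / ((n : ℝ) + 2)) (Int.fract y) with hcase | hcase
  · left
    exact step_caseI n m q q' t t' u _ hq ht htt hu hB hmn hmeq hcase hf1
  · right
    have hf0' : 0 < Int.fract y := by
      rcases hf0.lt_or_eq with h | h
      · exact h
      · exfalso
        apply hirr m
        rw [← h, add_zero] at hmeq
        rw [hmeq]
        field_simp
    exact step_caseII n m q q' t u _ hq ht hu hB hmn hm1 hmeq hcase hf0'

end Pool.Agent.Q3.CFSum
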