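import Mathlib
import Pool.Agent.Q3.CFSum.Num
import Pool.Agent.Q3.CFSum.Conv

/-!
# One step of the two-sided greedy expansion
-/

set_option autoImplicit false

open Filter Topology
open H313R3.BK

namespace Pool.Agent.Q3.CFSum

theorem ext1 (d : ℕ → ℕ) (hd : ∀ k, 1 ≤ d k) (a m : ℕ) (hm : 1 ≤ m) :
    (∀ k, 1 ≤ Function.update d a m k) ∧ (∀ k < a, Function.update d a m k = d k) ∧
    Function.update d a m a = m ∧ Q (Function.update d a m) (a + 1) = Q d (a + 1) ∧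
    (Q (Function.update d a m) (a + 2) : ℝ) = m * Q d (a + 1) + Q d a ∧
    cv (Function.update d a m) (a + 1) =
      cv d a + (-1) ^ a / ((Q d (a + 1) : ℝ) * (m * Q d (a + 1) + Q d a)) := by
  have h1 : ∀ k, 1 ≤ Function.update d a m k := by
    intro k
    by_cases h : k = a
    · subst h; simpa using hm
    · rw [Function.update_of_ne h]; exact hd k
  have h2 : ∀ k < a, Function.update d a m k = d k := by
    intro k hk
    rw [Function.update_of_ne (by omega)]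
  obtain ⟨c1, c2, c3, c4⟩ := PQ_congr _ _ a h2
  refine ⟨h1, h2, by simp, c4, ?_, ?_⟩
  · rw [Q_succ, c3, c4]
    simp
  · rw [cv_succ _ h1, cv_congr _ _ a h2, c3, c4]
    simp

/-- The invariant: digits positive, both signs agree with the sign of the error, the error is
small. -/
def Good (x : ℝ) (n : ℕ) (d e : ℕ → ℕ) (a b : ℕ) : Prop :=
  (∀ k, 1 ≤ d k) ∧ (∀ k, 1 ≤ e k) ∧
  0 < (-1) ^ a * (x - cv d a - cv e b) ∧ 0 < (-1) ^ b * (x - cv d a - cv e b) ∧
  (n + 1) * (Q d (a + 1) * Q e (b + 1) * |x - cv d a - cv e b|) < 1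

theorem sign_cases (a : ℕ) : ((-1 : ℝ)) ^ a = 1 ∨ ((-1 : ℝ)) ^ a = -1 := neg_one_pow_eq_or ℝ a

theorem cv_rat (d : ℕ → ℕ) (n : ℕ) : ∃ r : ℚ, cv d n = r :=
  ⟨(P d (n + 1) : ℚ) / Q d (n + 1), by unfold cv; push_cast; rfl⟩

/-- One step, with the first coordinate chosen. -/
theorem step_pair (x : ℝ) (hx : Irrational x) (n : ℕ) (d e : ℕ → ℕ) (a b : ℕ)
    (hG : Good x n d e a b) (hqt : Q d (a + 1) ≤ Q e (b + 1))
    (hstart : (Q d (a + 1) : ℝ) * (Q d (a + 1) + Q d a) * |x - cv d a - cv e b| ≤ 1) :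
    ∃ (d' e' : ℕ → ℕ) (a' b' : ℕ), Good x (n + 1) d' e' a' b' ∧ a < a' ∧ b ≤ b' ∧
      (∀ k < a, d' k = d k) ∧ (∀ k < b, e' k = e k) ∧
      (∀ k, a ≤ k → k < a' → n ≤ d' k) ∧ (∀ k, b ≤ k → k < b' → n ≤ e' k) := by
  obtain ⟨hd, he, hs1, hs2, hB⟩ := hG
  obtain ⟨δ, hδ⟩ : ∃ δ : ℝ, δ = x - cv d a - cv e b := ⟨_, rfl⟩
  rw [← hδ] at hs1 hs2 hB hstart
  -- common sign
  have hsab : ((-1 : ℝ)) ^ b = (-1) ^ a := by
    rcases sign_cases a with h1 | h1 <;> rcases sign_cases b with h2 | h2 <;>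
      rw [h1] at hs1 ⊢ <;> rw [h2] at hs2 ⊢ <;> linarith
  have hss : ((-1 : ℝ)) ^ a * (-1) ^ a = 1 := by
    rcases sign_cases a with h1 | h1 <;> rw [h1] <;> norm_num
  have habs : |δ| = (-1) ^ a * δ := by
    rcases sign_cases a with h1 | h1
    · rw [h1] at hs1 ⊢; rw [one_mul] at hs1 ⊢; exact abs_of_pos hs1
    · rw [h1] at hs1 ⊢
      rw [abs_of_neg (by linarith)]; ring
  have hu : 0 < |δ| := by rw [habs]; exact hs1
  have hδs : δ = (-1) ^ a * |δ| := by rw [habs, ← mul_assoc, hss, one_mul]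
  obtain ⟨r1, hr1⟩ := cv_rat d a
  obtain ⟨r2, hr2⟩ := cv_rat e b
  have hirr : ∀ m : ℕ, |δ| ≠ 1 / ((Q d (a + 1) : ℝ) * (m * Q d (a + 1) + Q d a)) := by
    intro m hm
    apply hx
    have hxe : x = r1 + r2 + (-1) ^ a * (1 / ((Q d (a + 1) : ℝ) * (m * Q d (a + 1) + Q d a))) := by
      rw [← hm, ← hδs, ← hr1, ← hr2, hδ]; ring
    refine ⟨r1 + r2 + (-1) ^ a * (1 / ((Q d (a + 1) : ℚ) * (m * Q d (a + 1) + Q d a))), ?_⟩
    rw [hxe]
    push_cast
    ring
  rcases step_num n (Q d (a + 1)) (Q d a) (Q e (b + 1)) (Q e b) |δ| (Q_pos d hd a) (Q_mono d hd a)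
    (Q_pos e he b) (Q_mono e he b) hqt hu hB hstart hirr with
    ⟨m, m', hm, hm', hv, hw, hfin⟩ | ⟨m, m', hm, hm1, hm', hv, hw, hfin⟩
  · -- case I
    obtain ⟨f1, f2, f3, f4, f5, f6⟩ := ext1 d hd a m (by omega)
    obtain ⟨g1, g2, g3, g4, g5, g6⟩ := ext1 e he b m' (by omega)
    have hnew : x - cv (Function.update d a m) (a + 1) - cv (Function.update e b m') (b + 1) =
        -((-1) ^ a * (1 / ((Q e (b + 1) : ℝ) * (m' * Q e (b + 1) + Q e b)) -
          (|δ| - 1 / ((Q d (a + 1) : ℝ) * (m * Q d (a + 1) + Q d a))))) := by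
      have : x - cv d a - cv e b = (-1) ^ a * |δ| := by rw [← hδs, hδ]
      rw [f6, g6, hsab]
      linear_combination this
    set W : ℝ := 1 / ((Q e (b + 1) : ℝ) * (m' * Q e (b + 1) + Q e b)) -
          (|δ| - 1 / ((Q d (a + 1) : ℝ) * (m * Q d (a + 1) + Q d a))) with hW
    have habsnew : |-((-1) ^ a * W)| = W := by
      rw [abs_neg, abs_mul, abs_pow, abs_neg, abs_one, one_pow, one_mul, abs_of_pos hw]
    refine ⟨_, _, a + 1, b + 1, ⟨f1, g1, ?_, ?_, ?_⟩, by omega, by omega, f2, g2, ?_, ?_⟩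
    · rw [hnew, pow_succ]
      have : (-1 : ℝ) ^ a * -1 * -((-1) ^ a * W) = ((-1) ^ a * (-1) ^ a) * W := by ring
      rw [this, hss, one_mul]; exact hw
    · rw [hnew, pow_succ, hsab]
      have : (-1 : ℝ) ^ a * -1 * -((-1) ^ a * W) = ((-1) ^ a * (-1) ^ a) * W := by ring
      rw [this, hss, one_mul]; exact hw
    · rw [hnew, habsnew, f5, g5]
      push_cast
      calc _ = (n + 2) * ((m * (Q d (a + 1) : ℝ) + Q d a) * (m' * Q e (b + 1) + Q e b) * W) := by
            ring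
        _ < 1 := hfin
    · intro k hk1 hk2
      have : k = a := by omega
      rw [this, f3]; omega
    · intro k hk1 hk2
      have : k = b := by omega
      rw [this, g3]; omega
  · -- case II
    obtain ⟨f1, f2, f3, f4, f5, f6⟩ := ext1 d hd a m hm1
    obtain ⟨g1, g2, g3, g4, g5, g6⟩ := ext1 (Function.update d a m) f1 (a + 1) m' (by omega)
    have hnew : x - cv (Function.update (Function.update d a m) (a + 1) m') (a + 1 + 1) - cv e b =
        (-1) ^ a * (1 / ((m * Q d (a + 1) + Q d a) * (m' * (m * Q d (a + 1) + Q d a) + Q d (a + 1))) -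
          (1 / ((Q d (a + 1) : ℝ) * (m * Q d (a + 1) + Q d a)) - |δ|)) := by
      have : x - cv d a - cv e b = (-1) ^ a * |δ| := by rw [← hδs, hδ]
      rw [g6, f6, f5, f4, pow_succ]
      linear_combination this
    set W : ℝ := 1 / ((m * Q d (a + 1) + Q d a) * (m' * (m * Q d (a + 1) + Q d a) + Q d (a + 1))) -
          (1 / ((Q d (a + 1) : ℝ) * (m * Q d (a + 1) + Q d a)) - |δ|) with hW
    have habsnew : |((-1) ^ a * W)| = W := by
      rw [abs_mul, abs_pow, abs_neg, abs_one, one_pow, one_mul, abs_of_pos hw]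
    refine ⟨_, e, a + 1 + 1, b, ⟨g1, he, ?_, ?_, ?_⟩, by omega, le_refl _, ?_, fun k _ => rfl, ?_, ?_⟩
    · rw [hnew, pow_succ, pow_succ]
      have : (-1 : ℝ) ^ a * -1 * -1 * ((-1) ^ a * W) = ((-1) ^ a * (-1) ^ a) * W := by ring
      rw [this, hss, one_mul]; exact hw
    · rw [hnew, hsab]
      have : (-1 : ℝ) ^ a * ((-1) ^ a * W) = ((-1) ^ a * (-1) ^ a) * W := by ring
      rw [this, hss, one_mul]; exact hw
    · rw [hnew, habsnew, g5, f5, f4]
      push_cast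
      calc _ = (n + 2) * ((m' * (m * (Q d (a + 1) : ℝ) + Q d a) + Q d (a + 1)) * Q e (b + 1) * W) := by
            ring
        _ < 1 := hfin
    · intro k hk
      rw [g2 k (by omega), f2 k hk]
    · intro k hk1 hk2
      rcases Nat.lt_or_ge a k with h | h
      · have : k = a + 1 := by omega
        rw [this, g3]; omega
      · have : k = a := by omega
        rw [this, g2 a (by omega), f3]; omega
    · intro k hk1 hk2
      omega

/-- Good is symmetric. -/
theorem Good.symm {x : ℝ} {n : ℕ} {d e : ℕ → ℕ} {a b : ℕ} (h : Good x n d e a b) :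
    Good x n e d b a := by
  obtain ⟨h1, h2, h3, h4, h5⟩ := h
  have e1 : x - cv e b - cv d a = x - cv d a - cv e b := by ring
  refine ⟨h2, h1, ?_, ?_, ?_⟩
  · rw [e1]; exact h4
  · rw [e1]; exact h3
  · rw [e1]
    calc _ = (n + 1) * (Q d (a + 1) * Q e (b + 1) * |x - cv d a - cv e b|) := by ring
      _ < 1 := h5

/-- The start condition holds automatically. -/
theorem start_ok {x : ℝ} {n : ℕ} {d e : ℕ → ℕ} {a b : ℕ} (h : Good x n d e a b)
    (h0 : n = 0 → a = 0) (hqt : Q d (a + 1) ≤ Q e (b + 1)) :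
    (Q d (a + 1) : ℝ) * (Q d (a + 1) + Q d a) * |x - cv d a - cv e b| ≤ 1 := by
  obtain ⟨hd, he, _, _, hB⟩ := h
  have hu : 0 ≤ |x - cv d a - cv e b| := abs_nonneg _
  set u := |x - cv d a - cv e b|
  have hq1 : (1 : ℝ) ≤ Q d (a + 1) := by exact_mod_cast Q_pos d hd a
  have hqt' : (Q d (a + 1) : ℝ) ≤ Q e (b + 1) := by exact_mod_cast hqt
  have hqq : (Q d a : ℝ) ≤ Q d (a + 1) := by exact_mod_cast Q_mono d hd a
  have h1 : (Q d (a + 1) : ℝ) * Q d (a + 1) * u ≤ Q d (a + 1) * Q e (b + 1) * u := by gcongr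
  rcases Nat.eq_zero_or_pos n with hn | hn
  · have ha := h0 hn
    subst hn
    subst ha
    have hq0 : Q d 0 = 0 := rfl
    rw [hq0]
    push_cast at hB ⊢
    linarith
  · have hn' : (1 : ℝ) ≤ n := by exact_mod_cast hn
    have h2 : (Q d (a + 1) : ℝ) * (Q d (a + 1) + Q d a) * u ≤
        2 * (Q d (a + 1) * Q d (a + 1) * u) := by
      have : (Q d (a + 1) : ℝ) * (Q d (a + 1) + Q d a) * u ≤
        Q d (a + 1) * (Q d (a + 1) + Q d (a + 1)) * u := by gcongr
      linarith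
    have h3 : 0 ≤ (Q d (a + 1) : ℝ) * Q e (b + 1) * u := by positivity
    nlinarith

end Pool.Agent.Q3.CFSum
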