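import Mathlib
import Pool.Agent.Q3.CFSum.Step

/-!
# The irrational case
-/

set_option autoImplicit false

open Filter Topology
open H313R3.BK

namespace Pool.Agent.Q3.CFSum

structure St where
  d1 : ℕ → ℕ
  d2 : ℕ → ℕ
  n1 : ℕ
  n2 : ℕ

def Inv (x : ℝ) (n : ℕ) (S : St) : Prop :=
  Good x n S.d1 S.d2 S.n1 S.n2 ∧ (n = 0 → S.n1 = 0 ∧ S.n2 = 0)

def Ext (n : ℕ) (S T : St) : Prop :=
  (S.n1 ≤ T.n1 ∧ (∀ k < S.n1, T.d1 k = S.d1 k) ∧ (∀ k, S.n1 ≤ k → k < T.n1 → n ≤ T.d1 k)) ∧
  (S.n2 ≤ T.n2 ∧ (∀ k < S.n2, T.d2 k = S.d2 k) ∧ (∀ k, S.n2 ≤ k → k < T.n2 → n ≤ T.d2 k)) ∧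
  (Q S.d1 (S.n1 + 1) ≤ Q S.d2 (S.n2 + 1) → S.n1 < T.n1) ∧
  (Q S.d2 (S.n2 + 1) < Q S.d1 (S.n1 + 1) → S.n2 < T.n2)

theorem exists_next (x : ℝ) (hx : Irrational x) (n : ℕ) (S : St) (h : Inv x n S) :
    ∃ T : St, Inv x (n + 1) T ∧ Ext n S T := by
  obtain ⟨hG, h0⟩ := h
  rcases le_or_gt (Q S.d1 (S.n1 + 1)) (Q S.d2 (S.n2 + 1)) with hq | hq
  · obtain ⟨d', e', a', b', h1, h2, h3, h4, h5, h6, h7⟩ :=
      step_pair x hx n S.d1 S.d2 S.n1 S.n2 hG hq (start_ok hG (fun h => (h0 h).1) hq)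
    refine ⟨⟨d', e', a', b'⟩, ⟨h1, fun h => absurd h (by omega)⟩, ⟨h2.le, h4, h6⟩, ⟨h3, h5, h7⟩,
      fun _ => h2, fun h => absurd h (by omega)⟩
  · obtain ⟨d', e', a', b', h1, h2, h3, h4, h5, h6, h7⟩ :=
      step_pair x hx n S.d2 S.d1 S.n2 S.n1 hG.symm hq.le (start_ok hG.symm (fun h => (h0 h).2) hq.le)
    refine ⟨⟨e', d', b', a'⟩, ⟨h1.symm, fun h => absurd h (by omega)⟩, ⟨h3, h5, h7⟩, ⟨h2.le, h4, h6⟩,
      fun h => absurd h (by omega), fun _ => h2⟩

theorem exists_seq (x : ℝ) (hx : Irrational x) (S : St) (h : Inv x 0 S) :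
    ∃ F : ℕ → St, F 0 = S ∧ (∀ n, Inv x n (F n)) ∧ ∀ n, Ext n (F n) (F (n + 1)) := by
  choose! nx hn1 hn2 using fun (n : ℕ) (S : St) => exists_next x hx n S
  let F : ℕ → St := fun n => Nat.rec S (fun n T => nx n T) n
  have hF : ∀ n, Inv x n (F n) := by
    intro n
    induction n with
    | zero => exact h
    | succ n ih => exact hn1 n (F n) ih
  exact ⟨F, rfl, hF, fun n => hn2 n (F n) (hF n)⟩

/-- Gluing the finite digit strings. -/
theorem glue (N : ℕ → ℕ) (d : ℕ → ℕ → ℕ) (hpos : ∀ m k, 1 ≤ d m k)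
    (hN : ∀ m, N m ≤ N (m + 1)) (hunb : ∀ K, ∃ m, K ≤ N m)
    (hext : ∀ m, ∀ k < N m, d (m + 1) k = d m k)
    (hbig : ∀ m k, N m ≤ k → k < N (m + 1) → m ≤ d (m + 1) k) :
    ∃ D : ℕ → ℕ, (∀ k, 1 ≤ D k) ∧ (∀ m, ∀ k < N m, D k = d m k) ∧ Tendsto D atTop atTop := by
  have hmono : Monotone N := monotone_nat_of_le_succ hN
  have hex : ∀ k, ∃ m, k < N m := fun k => by
    obtain ⟨m, hm⟩ := hunb (k + 1)
    exact ⟨m, by omega⟩
  have hstab : ∀ k m j, k < N m → d (m + j) k = d m k := by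
    intro k m j hk
    induction j with
    | zero => rfl
    | succ j ih =>
      rw [← add_assoc, hext (m + j) k (lt_of_lt_of_le hk (hmono (by omega))), ih]
  classical
  refine ⟨fun k => d (Nat.find (hex k)) k, fun k => hpos _ _, ?_, ?_⟩
  · intro m k hk
    have h1 := Nat.find_spec (hex k)
    have h2 : Nat.find (hex k) ≤ m := Nat.find_min' _ hk
    have h3 := hstab k (Nat.find (hex k)) (m - Nat.find (hex k)) h1
    rw [Nat.add_sub_cancel' h2] at h3
    exact h3.symm
  · rw [tendsto_atTop_atTop]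
    intro K
    refine ⟨N K, fun k hk => ?_⟩
    have h1 := Nat.find_spec (hex k)
    have h2 : K < Nat.find (hex k) := by
      by_contra hcon
      push Not at hcon
      have := hmono hcon
      omega
    obtain ⟨m, hm⟩ : ∃ m, Nat.find (hex k) = m + 1 := ⟨Nat.find (hex k) - 1, by omega⟩
    have h3 : N m ≤ k := by
      by_contra hcon
      push Not at hcon
      have := Nat.find_min' (hex k) hcon
      omega
    rw [hm] at h1
    have h4 := hbig m k h3 h1
    change K ≤ d (Nat.find (hex k)) k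
    rw [hm]
    omega

/-- The irrational case of the theorem. -/
theorem irrational_case (x : ℝ) (hx : Irrational x) (hx0 : 0 < x) (hx1 : x < 1) :
    ∃ D E : ℕ → ℕ, (∀ k, 1 ≤ D k) ∧ (∀ k, 1 ≤ E k) ∧ Tendsto D atTop atTop ∧
      Tendsto E atTop atTop ∧ x = cf D + cf E := by
  have hstart : Inv x 0 ⟨fun _ => 1, fun _ => 1, 0, 0⟩ := by
    refine ⟨⟨fun _ => le_refl _, fun _ => le_refl _, ?_, ?_, ?_⟩, fun _ => ⟨rfl, rfl⟩⟩ <;>
      simp [cv, P, Q, hx0, abs_of_pos hx0, hx1]
  obtain ⟨F, hF0, hI, hE⟩ := exists_seq x hx _ hstart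
  have hpos1 : ∀ m k, 1 ≤ (F m).d1 k := fun m => (hI m).1.1
  have hpos2 : ∀ m k, 1 ≤ (F m).d2 k := fun m => (hI m).1.2.1
  have hm1 : Monotone (fun m => (F m).n1) := monotone_nat_of_le_succ (fun m => (hE m).1.1)
  have hm2 : Monotone (fun m => (F m).n2) := monotone_nat_of_le_succ (fun m => (hE m).2.1.1)
  -- stability of the denominators
  have hst1 : ∀ m j, (F (m + j)).n1 = (F m).n1 →
      Q (F (m + j)).d1 ((F (m + j)).n1 + 1) = Q (F m).d1 ((F m).n1 + 1) := by
    intro m j hj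
    have hk : ∀ k < (F m).n1, (F (m + j)).d1 k = (F m).d1 k := by
      clear hj
      induction j with
      | zero => intro k _; rfl
      | succ j ih =>
        intro k hk
        rw [← add_assoc, (hE (m + j)).1.2.1 k (lt_of_lt_of_le hk (hm1 (by omega : m ≤ m + j)))]
        exact ih k hk
    rw [hj]
    exact (PQ_congr _ _ _ hk).2.2.2
  have hst2 : ∀ m j, (F (m + j)).n2 = (F m).n2 →
      Q (F (m + j)).d2 ((F (m + j)).n2 + 1) = Q (F m).d2 ((F m).n2 + 1) := by
    intro m j hj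
    have hk : ∀ k < (F m).n2, (F (m + j)).d2 k = (F m).d2 k := by
      clear hj
      induction j with
      | zero => intro k _; rfl
      | succ j ih =>
        intro k hk
        rw [← add_assoc, (hE (m + j)).2.1.2.1 k (lt_of_lt_of_le hk (hm2 (by omega : m ≤ m + j)))]
        exact ih k hk
    rw [hj]
    exact (PQ_congr _ _ _ hk).2.2.2
  -- first coordinate unbounded
  have hunb : ∀ K, (∃ m, K ≤ (F m).n1) ∧ (∃ m, K ≤ (F m).n2) := by
    have key1 : ¬ ∃ m, ∀ j, (F (m + j)).n1 = (F m).n1 := by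
      rintro ⟨m, hm⟩
      have hprog : ∀ j, m ≤ j → (F j).n2 < (F (j + 1)).n2 := by
        intro j hj
        apply (hE j).2.2.2
        by_contra hcon
        push Not at hcon
        have h1 := (hE j).2.2.1 hcon
        have h2 := hm (j - m)
        have h3 := hm (j + 1 - m)
        rw [show m + (j - m) = j by omega] at h2
        rw [show m + (j + 1 - m) = j + 1 by omega] at h3
        omega
      have hgrow : ∀ j, j ≤ (F (m + j)).n2 := by
        intro j
        induction j with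
        | zero => omega
        | succ j ih =>
          have := hprog (m + j) (by omega)
          rw [← add_assoc]; omega
      set c := Q (F m).d1 ((F m).n1 + 1) with hc
      have h1 := hst1 m c (hm c)
      have h2 := (Q_ge (F (m + c)).d2 (hpos2 _) (F (m + c)).n2).1
      have h3 := hgrow c
      have h4 : Q (F (m + c)).d1 ((F (m + c)).n1 + 1) ≤ Q (F (m + c)).d2 ((F (m + c)).n2 + 1) := by
        rw [h1]; omega
      have h5 := (hE (m + c)).2.2.1 h4
      have h6 := hm c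
      have h7 := hm (c + 1)
      rw [← add_assoc] at h7
      omega
    have key2 : ¬ ∃ m, ∀ j, (F (m + j)).n2 = (F m).n2 := by
      rintro ⟨m, hm⟩
      have hprog : ∀ j, m ≤ j → (F j).n1 < (F (j + 1)).n1 := by
        intro j hj
        apply (hE j).2.2.1
        by_contra hcon
        push Not at hcon
        have h1 := (hE j).2.2.2 hcon
        have h2 := hm (j - m)
        have h3 := hm (j + 1 - m)
        rw [show m + (j - m) = j by omega] at h2
        rw [show m + (j + 1 - m) = j + 1 by omega] at h3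
        omega
      have hgrow : ∀ j, j ≤ (F (m + j)).n1 := by
        intro j
        induction j with
        | zero => omega
        | succ j ih =>
          have := hprog (m + j) (by omega)
          rw [← add_assoc]; omega
      set c := Q (F m).d2 ((F m).n2 + 1) with hc
      have h1 := hst2 m (c + 1) (hm (c + 1))
      have h2 := (Q_ge (F (m + (c + 1))).d1 (hpos1 _) (F (m + (c + 1))).n1).1
      have h3 := hgrow (c + 1)
      have h4 : Q (F (m + (c + 1))).d2 ((F (m + (c + 1))).n2 + 1) <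
          Q (F (m + (c + 1))).d1 ((F (m + (c + 1))).n1 + 1) := by
        rw [h1]; omega
      have h5 := (hE (m + (c + 1))).2.2.2 h4
      have h6 := hm (c + 1)
      have h7 := hm (c + 1 + 1)
      rw [← add_assoc m (c + 1) 1] at h7
      omega
    have gen : ∀ (g : ℕ → ℕ), Monotone g → (¬ ∃ m, ∀ j, g (m + j) = g m) → ∀ K, ∃ m, K ≤ g m := by
      intro g hg hno K
      induction K with
      | zero => exact ⟨0, by omega⟩
      | succ K ih =>
        obtain ⟨m, hm⟩ := ih
        by_contra hcon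
        push Not at hcon
        apply hno
        refine ⟨m, fun j => ?_⟩
        have h1 := hcon (m + j)
        have h2 := hcon m
        have h3 := hg (by omega : m ≤ m + j)
        omega
    intro K
    exact ⟨gen _ hm1 key1 K, gen _ hm2 key2 K⟩
  obtain ⟨D, hD1, hD2, hD3⟩ := glue (fun m => (F m).n1) (fun m => (F m).d1) hpos1
    (fun m => (hE m).1.1) (fun K => (hunb K).1) (fun m => (hE m).1.2.1) (fun m => (hE m).1.2.2)
  obtain ⟨E, hE1, hE2, hE3⟩ := glue (fun m => (F m).n2) (fun m => (F m).d2) hpos2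
    (fun m => (hE m).2.1.1) (fun K => (hunb K).2) (fun m => (hE m).2.1.2.1)
    (fun m => (hE m).2.1.2.2)
  refine ⟨D, E, hD1, hE1, hD3, hE3, ?_⟩
  -- the value
  have hclose : ∀ ε : ℝ, 0 < ε → |x - (cf D + cf E)| ≤ ε := by
    intro ε hε
    obtain ⟨K, hK⟩ := exists_nat_gt (3 / ε)
    have hK0 : 0 < K := by
      have h1 : (0 : ℝ) < 3 / ε := by positivity
      have h2 : (0 : ℝ) < K := h1.trans hK
      exact_mod_cast h2
    have hK' : (0 : ℝ) < K := by exact_mod_cast hK0
    obtain ⟨m1, h1⟩ := (hunb K).1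
    obtain ⟨m2, h2⟩ := (hunb K).2
    obtain ⟨m, hmK, hmm1, hmm2⟩ : ∃ m, K ≤ m ∧ m1 ≤ m ∧ m2 ≤ m :=
      ⟨max K (max m1 m2), by omega, by omega, by omega⟩
    have h1' : K ≤ (F m).n1 := h1.trans (hm1 hmm1)
    have h2' : K ≤ (F m).n2 := h2.trans (hm2 hmm2)
    have e1 : cv (F m).d1 (F m).n1 = cv D (F m).n1 :=
      cv_congr _ _ _ (fun k hk => (hD2 m k hk).symm)
    have e2 : cv (F m).d2 (F m).n2 = cv E (F m).n2 :=
      cv_congr _ _ _ (fun k hk => (hE2 m k hk).symm)
    have hB := (hI m).1.2.2.2.2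
    rw [e1, e2] at hB
    have q1 : (1 : ℝ) ≤ Q (F m).d1 ((F m).n1 + 1) := by exact_mod_cast Q_pos _ (hpos1 m) _
    have q2 : (1 : ℝ) ≤ Q (F m).d2 ((F m).n2 + 1) := by exact_mod_cast Q_pos _ (hpos2 m) _
    have b0 : |x - cv D (F m).n1 - cv E (F m).n2| ≤ 1 / K := by
      rw [le_div_iff₀ hK']
      have hmK' : (K : ℝ) ≤ m := by exact_mod_cast hmK
      have hu := abs_nonneg (x - cv D (F m).n1 - cv E (F m).n2)
      set u := |x - cv D (F m).n1 - cv E (F m).n2|
      have h3 : u ≤ Q (F m).d1 ((F m).n1 + 1) * Q (F m).d2 ((F m).n2 + 1) * u := by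
        have : (1 : ℝ) ≤ Q (F m).d1 ((F m).n1 + 1) * Q (F m).d2 ((F m).n2 + 1) := by nlinarith
        nlinarith
      nlinarith
    have gen : ∀ (G : ℕ → ℕ) (hG : ∀ k, 1 ≤ G k) (n : ℕ), K ≤ n → |cf G - cv G n| ≤ 1 / K := by
      intro G hG n hn
      refine (cf_sub_cv G hG n).trans ?_
      apply one_div_le_one_div_of_le hK'
      have := (Q_ge G hG n).1
      exact_mod_cast hn.trans this
    have b1 := gen D hD1 _ h1'
    have b2 := gen E hE1 _ h2'
    have h4 : |x - (cf D + cf E)| ≤ |x - cv D (F m).n1 - cv E (F m).n2| +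
        |cf D - cv D (F m).n1| + |cf E - cv E (F m).n2| := by
      have : x - (cf D + cf E) = (x - cv D (F m).n1 - cv E (F m).n2) -
        (cf D - cv D (F m).n1) - (cf E - cv E (F m).n2) := by ring
      rw [this]
      refine (abs_sub _ _).trans ?_
      gcongr
      exact abs_sub _ _
    have h5 : 3 / (K : ℝ) < ε := by
      rw [div_lt_iff₀ hK']
      rw [div_lt_iff₀ hε] at hK
      linarith
    have h6 : 3 / (K : ℝ) = 1 / K + 1 / K + 1 / K := by ring
    linarith
  have h0 : |x - (cf D + cf E)| ≤ 0 := by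
    apply le_of_forall_pos_le_add
    intro ε hε
    rw [zero_add]
    exact hclose ε hε
  have := abs_eq_zero.mp (le_antisymm h0 (abs_nonneg _))
  linarith

end Pool.Agent.Q3.CFSum
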