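import Mathlib
import Pool.Agent.Q3.CFSum.Conv

/-!
# The rational case
-/

set_option autoImplicit false

open Filter Topology
open H313R3.BK

namespace Pool.Agent.Q3.CFSum

/-- The Gauss map. -/
noncomputable def G (y : ℝ) : ℝ := Int.fract (1 / y)

/-- The digits of the fractional part of `r` tend to infinity. -/
def Tail (r : ℝ) : Prop := Tendsto (fun n : ℕ => ⌊1 / (G^[n] (Int.fract r))⌋) atTop atTop

theorem tail_add_int (r : ℝ) (m : ℤ) : Tail (r + m) ↔ Tail r := by
  unfold Tail
  rw [Int.fract_add_intCast]

theorem tail_inv_fract (r : ℝ) : Tail (1 / Int.fract r) ↔ Tail r := by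
  unfold Tail
  rw [← tendsto_add_atTop_iff_nat (f := fun n : ℕ => ⌊1 / (G^[n] (Int.fract r))⌋) 1]
  have : ∀ n : ℕ, G^[n + 1] (Int.fract r) = G^[n] (Int.fract (1 / Int.fract r)) := fun n => by
    rw [Function.iterate_succ_apply]
    rfl
  simp only [this]

theorem tail_inv (r : ℝ) (h0 : 0 < r) (h1 : r ≠ 1) : Tail (1 / r) ↔ Tail r := by
  rcases lt_or_gt_of_ne h1 with h | h
  · have := tail_inv_fract r
    rwa [Int.fract_eq_self.2 ⟨h0.le, h⟩] at this
  · have h2 : Int.fract (1 / r) = 1 / r :=
      Int.fract_eq_self.2 ⟨by positivity, by rw [div_lt_one h0]; exact h⟩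
    have := tail_inv_fract (1 / r)
    rw [h2, one_div_one_div] at this
    exact this.symm

/-- Invariance under integer Möbius maps with nonnegative entries. -/
theorem tail_moebius (r : ℝ) (h0 : 0 < r) (hr : Irrational r) : ∀ (N a b c e : ℕ), a + b + c + e ≤ N →
    ((a : ℤ) * e - b * c = 1 ∨ (a : ℤ) * e - b * c = -1) →
    (Tail r → Tail ((a * r + b) / (c * r + e))) := by
  intro N
  induction N with
  | zero =>
    intro a b c e hs hdet
    have ha : a = 0 := by omega
    have hb : b = 0 := by omega
    subst ha; subst hb
    simp at hdet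
  | succ N ih =>
    intro a b c e hs hdet hT
    -- (c,e) ≠ 0, (a,b) ≠ 0
    have hce : 0 < c + e := by
      by_contra hcon
      have hc : c = 0 := by omega
      have he : e = 0 := by omega
      subst hc; subst he
      simp at hdet
    have hab : 0 < a + b := by
      by_contra hcon
      have hc : a = 0 := by omega
      have he : b = 0 := by omega
      subst hc; subst he
      simp at hdet
    have hden : 0 < (c : ℝ) * r + e := by
      rcases Nat.eq_zero_or_pos c with h | h
      · subst h
        have : (1 : ℝ) ≤ e := by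
          have : 1 ≤ e := by omega
          exact_mod_cast this
        simp; linarith
      · have : (1 : ℝ) ≤ c := by exact_mod_cast h
        positivity
    have hnum : 0 < (a : ℝ) * r + b := by
      rcases Nat.eq_zero_or_pos a with h | h
      · subst h
        have : (1 : ℝ) ≤ b := by
          have : 1 ≤ b := by omega
          exact_mod_cast this
        simp; linarith
      · have : (1 : ℝ) ≤ a := by exact_mod_cast h
        positivity
    -- the case of subtracting the second row
    have sub_case : ∀ a b c e : ℕ, a + b + c + e ≤ N + 1 → 0 < c + e → 0 < (c : ℝ) * r + e →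
        ((a : ℤ) * e - b * c = 1 ∨ (a : ℤ) * e - b * c = -1) → c ≤ a → e ≤ b →
        Tail ((a * r + b) / (c * r + e)) := by
      intro a b c e hs hce hden hdet hca heb
      have h1 := ih (a - c) (b - e) c e (by omega) (by
        push_cast [Nat.cast_sub hca, Nat.cast_sub heb]
        rcases hdet with h | h
        · left; linear_combination h
        · right; linear_combination h) hT
      have h2 : ((a : ℝ) * r + b) / (c * r + e) =
          (((a - c : ℕ) : ℝ) * r + ((b - e : ℕ) : ℝ)) / (c * r + e) + ((1 : ℤ) : ℝ) := by
        rw [Nat.cast_sub hca, Nat.cast_sub heb]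
        push_cast
        rw [div_add_one hden.ne']
        congr 1
        ring
      rw [h2, tail_add_int]
      exact h1
    rcases Nat.lt_or_ge a c with h1 | h1
    · rcases Nat.lt_or_ge e b with h2 | h2
      · -- a < c, e < b : then a = e = 0, b = c = 1
        have hz : a = 0 ∧ e = 0 ∧ b = 1 ∧ c = 1 := by
          have h3 : (a : ℤ) + 1 ≤ c := by exact_mod_cast h1
          have h4 : (e : ℤ) + 1 ≤ b := by exact_mod_cast h2
          have h5 : ((a : ℤ) + 1) * (e + 1) ≤ b * c := by nlinarith
          have h6 : (a : ℤ) + e = 0 := by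
            have ha0 : (0 : ℤ) ≤ a := by positivity
            have he0 : (0 : ℤ) ≤ e := by positivity
            rcases hdet with h | h <;> nlinarith
          have h7 : a = 0 := by omega
          have h8 : e = 0 := by omega
          subst h7; subst h8
          have h9 : (b : ℤ) * c = 1 := by
            rcases hdet with h | h
            · nlinarith
            · simp at h; linarith
          have h10 : b * c = 1 := by exact_mod_cast h9
          exact ⟨rfl, rfl, Nat.eq_one_of_mul_eq_one_right h10, Nat.eq_one_of_mul_eq_one_left h10⟩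
        obtain ⟨e1, e2, e3, e4⟩ := hz
        subst e1; subst e2; subst e3; subst e4
        have : (((0 : ℕ) : ℝ) * r + ((1 : ℕ) : ℝ)) / (((1 : ℕ) : ℝ) * r + ((0 : ℕ) : ℝ)) = 1 / r := by
          push_cast; simp
        rw [this, tail_inv r h0 hr.ne_one]
        exact hT
      · -- a ≤ c, b ≤ e : invert, then subtract
        have hne : ((a : ℝ) * r + b) / (c * r + e) ≠ 1 := by
          intro h
          rw [div_eq_one_iff_eq hden.ne'] at h
          have h3 : ((c : ℝ) - a) * r = b - e := by linarith
          have h4 : (0 : ℝ) < c - a := by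
            have : (a : ℝ) < c := by exact_mod_cast h1
            linarith
          apply hr
          refine ⟨((b : ℚ) - e) / (c - a), ?_⟩
          push_cast
          rw [← h3]
          field_simp
        rw [← tail_inv _ (by positivity) hne, one_div_div]
        apply sub_case c e a b (by omega) hab hnum _ h1.le h2
        rcases hdet with h | h
        · right; linear_combination -h
        · left; linear_combination -h
    · rcases Nat.lt_or_ge b e with h2 | h2
      · rcases Nat.eq_or_lt_of_le h1 with h3 | h3
        · -- a = c, b < e: invert, subtract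
          have hne : ((a : ℝ) * r + b) / (c * r + e) ≠ 1 := by
            intro h
            rw [div_eq_one_iff_eq hden.ne', ← h3] at h
            have h4 : (b : ℝ) = e := by linarith
            have : b = e := by exact_mod_cast h4
            omega
          rw [← tail_inv _ (by positivity) hne, one_div_div]
          apply sub_case c e a b (by omega) hab hnum _ h3.ge h2.le
          rcases hdet with h | h
          · right; linear_combination -h
          · left; linear_combination -h
        · -- c < a, b < e : then b = c = 0, a = e = 1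
          have hz : a = 1 ∧ e = 1 ∧ b = 0 ∧ c = 0 := by
            have h3' : (c : ℤ) + 1 ≤ a := by exact_mod_cast h3
            have h4 : (b : ℤ) + 1 ≤ e := by exact_mod_cast h2
            have h5 : ((c : ℤ) + 1) * (b + 1) ≤ a * e := by nlinarith
            have h6 : (c : ℤ) + b = 0 := by
              have ha0 : (0 : ℤ) ≤ c := by positivity
              have he0 : (0 : ℤ) ≤ b := by positivity
              rcases hdet with h | h <;> nlinarith
            have h7 : c = 0 := by omega
            have h8 : b = 0 := by omega
            subst h7; subst h8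
            have h9 : (a : ℤ) * e = 1 := by
              rcases hdet with h | h
              · simp at h; linarith
              · nlinarith
            have h10 : a * e = 1 := by exact_mod_cast h9
            exact ⟨Nat.eq_one_of_mul_eq_one_right h10, Nat.eq_one_of_mul_eq_one_left h10, rfl, rfl⟩
          obtain ⟨e1, e2, e3, e4⟩ := hz
          subst e1; subst e2; subst e3; subst e4
          have : (((1 : ℕ) : ℝ) * r + ((0 : ℕ) : ℝ)) / (((0 : ℕ) : ℝ) * r + ((1 : ℕ) : ℝ)) = r := by
            push_cast; simp
          rw [this]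
          exact hT
      · exact sub_case a b c e hs hce hden hdet h1 h2

/-- Digits from a sequence of complete quotients. -/
theorem tail_of_quot (w : ℕ → ℝ) (d : ℕ → ℕ) (hw : ∀ n, 1 < w n)
    (hrec : ∀ n, w n = d n + 1 / w (n + 1)) (hd : Tendsto d atTop atTop) : Tail (w 0) := by
  have hfr : ∀ n, Int.fract (w n) = 1 / w (n + 1) := by
    intro n
    rw [hrec n, Int.fract_natCast_add]
    have := hw (n + 1)
    exact Int.fract_eq_self.2 ⟨by positivity, by rw [div_lt_one (by linarith)]; exact this⟩
  have hfl : ∀ n, ⌊w n⌋ = d n := by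
    intro n
    have h1 := hfr n
    have h2 := Int.floor_add_fract (w n)
    rw [h1] at h2
    have h3 := hrec n
    have h4 : ((⌊w n⌋ : ℤ) : ℝ) = (d n : ℝ) := by linarith
    exact_mod_cast h4
  have hit : ∀ n, G^[n] (Int.fract (w 0)) = 1 / w (n + 1) := by
    intro n
    induction n with
    | zero => exact hfr 0
    | succ n ih =>
      rw [Function.iterate_succ_apply', ih]
      unfold G
      rw [one_div_one_div]
      exact hfr (n + 1)
  unfold Tail
  have : ∀ n : ℕ, ⌊1 / (G^[n] (Int.fract (w 0)))⌋ = ((d (n + 1) : ℕ) : ℤ) := by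
    intro n
    rw [hit, one_div_one_div, hfl]
  simp only [this]
  exact tendsto_natCast_atTop_atTop.comp ((tendsto_add_atTop_iff_nat 1).2 hd)

/-- The rational case of the theorem. -/
theorem rational_case (p q : ℕ) (hp : 1 ≤ p) (hq : 1 ≤ q) (hcop : Nat.Coprime p q) (hle : p ≤ q) :
    ∃ g1 g2 : ℝ, g1 ∈ Set.Ioo (0 : ℝ) 1 ∧ g2 ∈ Set.Ioo (0 : ℝ) 1 ∧ Tail g1 ∧ Tail g2 ∧
      (p : ℝ) / q = g1 + g2 := by
  -- u, j with p u = 1 + q j
  obtain ⟨u, j, hu, huj⟩ : ∃ u j : ℕ, 1 ≤ u ∧ p * u = 1 + q * j := by
    rcases Nat.eq_or_lt_of_le hq with h | h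
    · refine ⟨1, p - 1, le_refl _, ?_⟩
      rw [← h]; omega
    · obtain ⟨m, -, hm⟩ := Nat.exists_mul_mod_eq_one_of_coprime hcop h
      refine ⟨m, p * m / q, ?_, ?_⟩
      · rcases Nat.eq_zero_or_pos m with h0 | h0
        · rw [h0] at hm; simp at hm
        · exact h0
      · have := Nat.div_add_mod (p * m) q
        omega
  -- digits
  set D : ℕ := q ^ 2 with hD
  have hD1 : 1 ≤ D := Nat.one_le_pow _ _ hq
  set b : ℕ → ℕ := fun n => D * (n + 1) with hb
  have hb1 : ∀ n, 1 ≤ b n := fun n => by
    simp only [hb]; nlinarith
  have hbt : Tendsto b atTop atTop := by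
    rw [tendsto_atTop_atTop]
    intro K
    refine ⟨K, fun n hn => ?_⟩
    simp only [hb]
    nlinarith
  have hDr : (1 : ℝ) ≤ D := by exact_mod_cast hD1
  set z : ℕ → ℝ := fun n => cf (shn n b) with hz
  have hs : ∀ n i, 1 ≤ shn n b i := fun n i => hb1 (i + n)
  have hz0 : ∀ n, 0 < z n := fun n => cf_pos _ (hs n)
  have hz1 : ∀ n, z n < 1 := fun n => cf_lt_one _ (hs n)
  have hzr : ∀ n, 1 / z n = b n + z (n + 1) := by
    intro n
    simp only [hz]
    rw [cf_rec _ (hs n), sh_shn, one_div_one_div]
    simp [shn]
  have hzD : ∀ n, D < 1 / z n := by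
    intro n
    rw [hzr n]
    have h1 := hz0 (n + 1)
    have h2 : (D : ℝ) ≤ b n := by
      simp only [hb]
      push_cast
      nlinarith [show (0 : ℝ) ≤ n by positivity]
    linarith
  -- tails
  have hTz : Tail (1 / z 0) := by
    apply tail_of_quot (fun n => 1 / z n) b
    · intro n
      have := hzD n
      linarith
    · intro n
      rw [one_div_one_div]; exact hzr n
    · exact hbt
  have hTD : Tail (D / z 0) := by
    set w : ℕ → ℝ := fun n => if Even n then D / z n else 1 / (D * z n) with hw
    set d : ℕ → ℕ := fun n => if Even n then D * b n else (n + 1) with hd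
    have h0 : w 0 = D / z 0 := by simp [hw]
    rw [← h0]
    apply tail_of_quot w d
    · intro n
      simp only [hw]
      have h1 := hzD n
      have h2 := hz0 n
      rw [lt_div_iff₀ h2] at h1
      split_ifs
      · rw [lt_div_iff₀ h2]
        have := hz1 n
        linarith
      · rw [lt_div_iff₀ (by positivity)]
        linarith
    · intro n
      have h1 := hzr n
      have h2 := hz0 n
      have h3 := hz0 (n + 1)
      simp only [hw, hd]
      by_cases hn : Even n
      · have hn' : ¬ Even (n + 1) := by
          rw [Nat.even_add_one]; exact not_not.mpr hn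
        rw [if_pos hn, if_pos hn, if_neg hn', one_div_one_div]
        push_cast
        calc (D : ℝ) / z n = D * (1 / z n) := by ring
          _ = D * b n + D * z (n + 1) := by rw [h1]; ring
      · have hn' : Even (n + 1) := by
          rw [Nat.even_add_one]; exact hn
        rw [if_neg hn, if_neg hn, if_pos hn']
        have hD0 : (D : ℝ) ≠ 0 := by positivity
        calc (1 : ℝ) / (D * z n) = (1 / z n) / D := by field_simp
          _ = (b n + z (n + 1)) / D := by rw [h1]
          _ = ((n + 1 : ℕ) : ℝ) + 1 / (D / z (n + 1)) := by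
            simp only [hb]
            push_cast
            field_simp
    · rw [tendsto_atTop_atTop]
      intro K
      refine ⟨K, fun n hn => ?_⟩
      simp only [hd]
      split_ifs
      · simp only [hb]
        calc K ≤ n + 1 := by omega
          _ ≤ D * (D * (n + 1)) := by
            rw [← mul_assoc]
            exact Nat.le_mul_of_pos_left _ (Nat.mul_pos hD1 hD1)
      · omega
  have hq0 : (0 : ℝ) < q := by exact_mod_cast hq
  have hq1 : (1 : ℝ) ≤ q := by exact_mod_cast hq
  have hu0 : (1 : ℝ) ≤ u := by exact_mod_cast hu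
  have hp0 : (1 : ℝ) ≤ p := by exact_mod_cast hp
  have hj0 : (0 : ℝ) ≤ j := by positivity
  have hujr : (p : ℝ) * u = 1 + q * j := by exact_mod_cast huj
  have hZ0 := hz0 0
  have hZ1 := hz1 0
  have hirr : Irrational (D / z 0) := by
    have h1 : Irrational (z 0) := irrational_cf _ (hs 0)
    have h2 := h1.inv.natCast_mul (m := D) (by omega)
    rwa [← div_eq_mul_inv] at h2
  set g1 : ℝ := (j * (D / z 0) + p) / (u * (D / z 0) + q) with hg1
  set g2 : ℝ := 1 / (u * q + z 0) with hg2
  have hsum : (p : ℝ) / q = g1 + g2 := by
    have hDq : (D : ℝ) = q ^ 2 := by rw [hD]; push_cast; rfl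
    rw [hg1, hg2, hDq]
    have h1 : (u : ℝ) * (q ^ 2 / z 0) + q ≠ 0 := by positivity
    have h2 : (u : ℝ) * q + z 0 ≠ 0 := by positivity
    have h3 : (j * ((q : ℝ) ^ 2 / z 0) + p) / (u * (q ^ 2 / z 0) + q) =
        (j * q ^ 2 + p * z 0) / (q * (u * q + z 0)) := by
      rw [div_eq_div_iff h1 (by positivity)]
      field_simp
    rw [h3]
    field_simp
    linear_combination q * hujr
  have hg2pos : 0 < g2 := by positivity
  have hg1pos : 0 < g1 := by positivity
  have hx1 : (p : ℝ) / q ≤ 1 := by
    rw [div_le_one hq0]; exact_mod_cast hle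
  refine ⟨g1, g2, ⟨hg1pos, by linarith⟩, ⟨hg2pos, by linarith⟩, ?_, ?_, hsum⟩
  · apply tail_moebius (D / z 0) (by positivity) hirr (j + p + u + q) j p u q (le_refl _) _ hTD
    right
    have : (p : ℤ) * u = 1 + q * j := by exact_mod_cast huj
    linear_combination -this
  · rw [hg2, tail_inv _ (by positivity) (by nlinarith)]
    have : (u : ℝ) * q + z 0 = z 0 + ((u * q : ℕ) : ℤ) := by push_cast; ring
    rw [this, tail_add_int, ← tail_inv _ hZ0 hZ1.ne]
    exact hTz

end Pool.Agent.Q3.CFSum
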